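import Mathlib

set_option autoImplicit false

namespace Pool.Agent.Results.MP_4423d6_an.StrongFalse

open Real Set Filter Topology

/-- The right-hand side of the Winfree model. -/
noncomputable def field {N : ℕ} (Ω : Fin N → ℝ) (κ : ℝ) (Θ : Fin N → ℝ) (i : Fin N) : ℝ :=
  Ω i - κ / N * ∑ j, (1 + cos (Θ j)) * sin (Θ i)

/-- `θ` solves the initial value problem on `[0, ∞)`. -/
def IsSol {N : ℕ} (Ω : Fin N → ℝ) (κ : ℝ) (Θ0 : Fin N → ℝ) (θ : ℝ → Fin N → ℝ) : Prop :=
  θ 0 = Θ0 ∧ ∀ i, ContinuousOn (fun t => θ t i) (Ici 0) ∧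
    ∀ t : ℝ, 0 < t → HasDerivAt (fun s => θ s i) (field Ω κ (θ t) i) t

/-- The solution from `Θ0` converges. -/
def Converges {N : ℕ} (Ω : Fin N → ℝ) (κ : ℝ) (Θ0 : Fin N → ℝ) : Prop :=
  ∃ θ : ℝ → Fin N → ℝ, IsSol Ω κ Θ0 θ ∧ ∀ i, ∃ l : ℝ, Tendsto (fun t => θ t i) atTop (𝓝 l)

/-- The critical coupling strength (infimum taken in the extended reals). -/
noncomputable def kc {N : ℕ} (Ω : Fin N → ℝ) : EReal :=
  sInf ((fun x : ℝ => (x : EReal)) ''
    {ks : ℝ | 0 < ks ∧ ∀ κ : ℝ, ks < κ → ∃ Θ : Fin N → ℝ, ∀ i, field Ω κ Θ i = 0})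

/-- The pathwise critical coupling strength (infimum taken in the extended reals). -/
noncomputable def kpc {N : ℕ} (Θ0 Ω : Fin N → ℝ) : EReal :=
  sInf ((fun x : ℝ => (x : EReal)) '' {ks : ℝ | 0 < ks ∧ ∀ κ : ℝ, ks < κ → Converges Ω κ Θ0})

/-- Frequencies `(1, 0, …, 0)`. -/
def om (n : ℕ) : Fin (n + 1) → ℝ := Fin.cons 1 (fun _ => 0)

/-- Initial phases `(a, π, …, π)`. -/
noncomputable def init (n : ℕ) (a : ℝ) : Fin (n + 1) → ℝ := Fin.cons a (fun _ => π)

lemma sum_bounds {N : ℕ} (Θ : Fin N → ℝ) :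
    0 ≤ ∑ j, (1 + cos (Θ j)) ∧ ∑ j, (1 + cos (Θ j)) ≤ 2 * N := by
  constructor
  · exact Finset.sum_nonneg fun j _ => by linarith [neg_one_le_cos (Θ j)]
  · calc ∑ j, (1 + cos (Θ j)) ≤ ∑ _j : Fin N, (2 : ℝ) :=
          Finset.sum_le_sum fun j _ => by linarith [cos_le_one (Θ j)]
      _ = 2 * N := by simp [mul_comm]

lemma stay {n : ℕ} {κ a : ℝ} (hκ : 0 < κ) {θ : ℝ → Fin (n + 1) → ℝ}
    (h : IsSol (om n) κ (init n a) θ) (j : Fin n) (t : ℝ) (ht : 0 ≤ t) : θ t j.succ = π := by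
  obtain ⟨h0, h1⟩ := h
  obtain ⟨hc, hd⟩ := h1 j.succ
  set g : ℝ → ℝ := fun s => (θ s j.succ - π) ^ 2 * exp (-(4 * κ) * s) with hg
  have hgd : ∀ s : ℝ, 0 < s → HasDerivAt g
      (2 * (θ s j.succ - π) * field (om n) κ (θ s) j.succ * exp (-(4 * κ) * s)
        + (θ s j.succ - π) ^ 2 * (exp (-(4 * κ) * s) * (-(4 * κ)))) s := by
    intro s hs
    have e1 : HasDerivAt (fun s => (θ s j.succ - π) ^ 2)
        (2 * (θ s j.succ - π) * field (om n) κ (θ s) j.succ) s := by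
      have := ((hd s hs).sub_const π).pow 2
      refine HasDerivAt.congr_deriv (f' := _) this ?_
      norm_num
    have e2 : HasDerivAt (fun s => exp (-(4 * κ) * s)) (exp (-(4 * κ) * s) * (-(4 * κ))) s := by
      have := ((hasDerivAt_id s).const_mul (-(4 * κ))).exp
      simpa using this
    exact e1.mul e2
  have hanti : AntitoneOn g (Ici 0) := by
    apply antitoneOn_of_deriv_nonpos (convex_Ici 0)
    · exact ((hc.sub continuousOn_const).pow 2).mul (by fun_prop)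
    · intro s hs
      rw [interior_Ici] at hs
      exact (hgd s hs).differentiableAt.differentiableWithinAt
    · intro s hs
      rw [interior_Ici] at hs
      rw [(hgd s hs).deriv]
      have hE : 0 < exp (-(4 * κ) * s) := exp_pos _
      obtain ⟨b1, b2⟩ := sum_bounds (θ s)
      set y := θ s j.succ - π with hy
      have hsin : sin (θ s j.succ) = -sin y := by
        rw [hy, sin_sub_pi]; ring
      have hf : field (om n) κ (θ s) j.succ
          = κ / ((n + 1 : ℕ) : ℝ) * (∑ i, (1 + cos (θ s i))) * sin y := by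
        unfold field om
        rw [Fin.cons_succ, ← Finset.sum_mul, hsin]
        ring
      have hN : (0 : ℝ) < ((n + 1 : ℕ) : ℝ) := by positivity
      set R := κ / ((n + 1 : ℕ) : ℝ) * (∑ i, (1 + cos (θ s i))) with hR
      have hR0 : 0 ≤ R := by positivity
      have hR2 : R ≤ 2 * κ := by
        rw [hR, div_mul_eq_mul_div, div_le_iff₀ hN]
        nlinarith
      have hys : y * sin y ≤ y ^ 2 := by
        have h1 : |sin y| ≤ |y| := abs_sin_le_abs
        calc y * sin y ≤ |y * sin y| := le_abs_self _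
          _ = |y| * |sin y| := abs_mul _ _
          _ ≤ |y| * |y| := by gcongr
          _ = y ^ 2 := by rw [← sq, sq_abs]
      rw [hf]
      have key : 2 * y * (R * sin y) ≤ 4 * κ * y ^ 2 := by
        have : R * (y * sin y) ≤ R * y ^ 2 := by gcongr
        have : R * y ^ 2 ≤ 2 * κ * y ^ 2 := by gcongr
        nlinarith
      nlinarith
  have hle : g t ≤ g 0 := hanti (le_refl (0 : ℝ)) ht ht
  have hg0 : g 0 = 0 := by
    simp [hg, h0, init]
  have hE : 0 < exp (-(4 * κ) * t) := exp_pos _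
  have : (θ t j.succ - π) ^ 2 ≤ 0 := by
    by_contra hh
    push Not at hh
    have : 0 < g t := mul_pos hh hE
    linarith
  have : θ t j.succ - π = 0 := by
    have := le_antisymm this (sq_nonneg _)
    simpa using this
  linarith

lemma not_conv {n : ℕ} {κ a : ℝ} (hκ : 0 < κ) (hκ2 : κ < ((n + 1 : ℕ) : ℝ) / 2) :
    ¬ Converges (om n) κ (init n a) := by
  rintro ⟨θ, h, hl⟩
  obtain ⟨l, hl⟩ := hl 0
  have hN : (0 : ℝ) < ((n + 1 : ℕ) : ℝ) := by positivity
  set c := 1 - 2 * (κ / ((n + 1 : ℕ) : ℝ)) with hc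
  have hc0 : 0 < c := by
    have : κ / ((n + 1 : ℕ) : ℝ) < 1 / 2 := by
      rw [div_lt_iff₀ hN]; linarith
    linarith
  obtain ⟨hcont, hd⟩ := h.2 0
  set g : ℝ → ℝ := fun s => θ s 0 - c * s with hg
  have hgd : ∀ s : ℝ, 0 < s → HasDerivAt g (field (om n) κ (θ s) 0 - c) s := by
    intro s hs
    have := (hd s hs).sub ((hasDerivAt_id s).const_mul c)
    refine HasDerivAt.congr_deriv (f' := _) this ?_
    ring
  have hmono : MonotoneOn g (Ici 0) := by
    apply monotoneOn_of_deriv_nonneg (convex_Ici 0)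
    · exact hcont.sub (by fun_prop)
    · intro s hs
      rw [interior_Ici] at hs
      exact (hgd s hs).differentiableAt.differentiableWithinAt
    · intro s hs
      rw [interior_Ici] at hs
      rw [(hgd s hs).deriv]
      have hf : field (om n) κ (θ s) 0
          = 1 - κ / ((n + 1 : ℕ) : ℝ) * ((1 + cos (θ s 0)) * sin (θ s 0)) := by
        unfold field om
        rw [Fin.cons_zero, Fin.sum_univ_succ]
        have : ∑ i : Fin n, (1 + cos (θ s i.succ)) * sin (θ s 0) = 0 := by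
          apply Finset.sum_eq_zero
          intro i _
          rw [stay hκ h i s (le_of_lt hs)]
          simp
        rw [this, add_zero]
      rw [hf, hc]
      have h1 : (1 + cos (θ s 0)) * sin (θ s 0) ≤ 2 := by
        nlinarith [neg_one_le_cos (θ s 0), cos_le_one (θ s 0), sin_le_one (θ s 0)]
      have h2 : 0 < κ / ((n + 1 : ℕ) : ℝ) := by positivity
      nlinarith
  have hlow : ∀ᶠ s in atTop, θ 0 0 + c * s ≤ θ s 0 := by
    filter_upwards [eventually_ge_atTop (0 : ℝ)] with s hs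
    have := hmono (le_refl (0 : ℝ)) hs hs
    simp only [hg] at this
    linarith
  have htop : Tendsto (fun s : ℝ => θ 0 0 + c * s) atTop atTop :=
    tendsto_atTop_add_const_left _ _ (tendsto_id.const_mul_atTop hc0)
  exact not_tendsto_nhds_of_tendsto_atTop (tendsto_atTop_mono' _ hlow htop) l hl

lemma kpc_ge (n : ℕ) (a : ℝ) : ((((n + 1 : ℕ) : ℝ) / 2 : ℝ) : EReal) ≤ kpc (init n a) (om n) := by
  apply le_sInf
  rintro _ ⟨ks, ⟨h0, h1⟩, rfl⟩
  rw [EReal.coe_le_coe_iff]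
  by_contra hh
  push Not at hh
  exact not_conv (κ := (ks + ((n + 1 : ℕ) : ℝ) / 2) / 2) (by linarith) (by linarith)
    (h1 _ (by linarith))

lemma kc_le (n : ℕ) : kc (om n) ≤ ((((n + 1 : ℕ) : ℝ) / (2 * n + 1) : ℝ) : EReal) := by
  apply sInf_le
  refine ⟨_, ⟨by positivity, ?_⟩, rfl⟩
  intro κ hκ
  have hN : (0 : ℝ) < ((n + 1 : ℕ) : ℝ) := by positivity
  set F : ℝ → ℝ := fun x => κ / ((n + 1 : ℕ) : ℝ) * ((1 + cos x) * sin x + 2 * n * sin x) with hF
  have hFc : ContinuousOn F (Icc 0 (π / 2)) := by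
    apply Continuous.continuousOn
    fun_prop
  have h1 : (1 : ℝ) ∈ Icc (F 0) (F (π / 2)) := by
    constructor
    · simp [hF]
    · simp only [hF, cos_pi_div_two, sin_pi_div_two]
      rw [div_lt_iff₀ (by positivity)] at hκ
      rw [div_mul_eq_mul_div, le_div_iff₀ hN]
      linarith
  obtain ⟨x, -, hx⟩ := intermediate_value_Icc (by positivity) hFc h1
  refine ⟨Fin.cons x (fun _ => 0), ?_⟩
  intro i
  refine Fin.cases ?_ (fun j => ?_) i
  · unfold field om
    rw [Fin.sum_univ_succ]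
    simp only [Fin.cons_zero, Fin.cons_succ, cos_zero, Finset.sum_const, Finset.card_univ,
      Fintype.card_fin, nsmul_eq_mul]
    simp only [hF] at hx
    linarith
  · unfold field om
    simp

lemma norm_om (n : ℕ) : ‖om n‖ ≤ 1 := by
  rw [pi_norm_le_iff_of_nonneg zero_le_one]
  intro i
  refine Fin.cases ?_ (fun j => ?_) i <;> simp [om]

theorem result :
    (∀ (n : ℕ) (a : ℝ), 1 ≤ n → kc (om n) < kpc (init n a) (om n) ∧
      ((((n + 1 : ℕ) : ℝ) / 2 : ℝ) : EReal) ≤ kpc (init n a) (om n)) ∧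
    (¬ ∀ N : ℕ, 1 ≤ N → ∀ Ω Θ0 : Fin N → ℝ, kc Ω = kpc Θ0 Ω) ∧
    (¬ ∃ c : ℝ, 0 < c ∧ ∀ N : ℕ, 1 ≤ N → ∀ Ω Θ0 : Fin N → ℝ,
      kpc Θ0 Ω ≤ ((c * ‖Ω‖ : ℝ) : EReal)) := by
  have main : ∀ (n : ℕ) (a : ℝ), 1 ≤ n → kc (om n) < kpc (init n a) (om n) := by
    intro n a hn
    refine lt_of_le_of_lt (kc_le n) (lt_of_lt_of_le ?_ (kpc_ge n a))
    rw [EReal.coe_lt_coe_iff]
    have hn' : (1 : ℝ) ≤ n := by exact_mod_cast hn
    apply div_lt_div_of_pos_left (by positivity) (by norm_num) (by linarith)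
  refine ⟨fun n a hn => ⟨main n a hn, kpc_ge n a⟩, ?_, ?_⟩
  · intro h
    exact (main 1 0 le_rfl).ne (h 2 (by norm_num) (om 1) (init 1 0))
  · rintro ⟨c, hc, h⟩
    obtain ⟨n, hn⟩ := exists_nat_gt (2 * c)
    have h1 := le_trans (kpc_ge n 0) (h (n + 1) (by omega) (om n) (init n 0))
    rw [EReal.coe_le_coe_iff] at h1
    have h2 : c * ‖om n‖ ≤ c := by
      have := norm_om n
      nlinarith
    push_cast at h1
    linarith

end Pool.Agent.Results.MP_4423d6_an.StrongFalse
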